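import Pool.Agent.Helper18.Ru.DetIndex
import Pool.Agent.Helper30.Ru.GenWron
import Pool.Agent.Helper40.Ru.HasseBasic
import Pool.Agent.Helper75.Ru.PropConst
import Pool.Agent.Helper15.Ru.DetH
import Pool.Agent.Helper96.Ru.HeightLocal
import Pool.Agent.Helper34.Ru.WronDeg

/-! Packet PG-WRZ of MP_a41896_nt: coefficients of a polynomial in a second group of variables -/

set_option autoImplicit false

open MvPolynomial

namespace Pool.Agent.Helper7.VN

open Pool.Agent.Helper92.Ru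

noncomputable section

section coef

variable {k : Type} [Field k] {σ τ : Type}

/-- the specialisation of the second group of variables -/
def sp (η : τ → k) : MvPolynomial (σ ⊕ τ) k →ₐ[k] MvPolynomial σ k :=
  aeval (Sum.elim X fun t => C (η t))

/-- the two parts of an exponent -/
def lft (e : σ ⊕ τ →₀ ℕ) : σ →₀ ℕ := e.comapDomain Sum.inl Sum.inl_injective.injOn

/-- the two parts of an exponent -/
def rgt (e : σ ⊕ τ →₀ ℕ) : τ →₀ ℕ := e.comapDomain Sum.inr Sum.inr_injective.injOn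

theorem lft_apply (e : σ ⊕ τ →₀ ℕ) (h : σ) : lft e h = e (Sum.inl h) := by
  simp [lft, Finsupp.comapDomain_apply]

theorem rgt_apply (e : σ ⊕ τ →₀ ℕ) (h : τ) : rgt e h = e (Sum.inr h) := by
  simp [rgt, Finsupp.comapDomain_apply]

theorem sum_lft_rgt (e : σ ⊕ τ →₀ ℕ) : Finsupp.sumElim (lft e) (rgt e) = e := by
  ext x
  rcases x with h | h
  · rw [Finsupp.sumElim_inl, lft_apply]
  · rw [Finsupp.sumElim_inr, rgt_apply]

theorem lft_sum (m : σ →₀ ℕ) (g : τ →₀ ℕ) : lft (Finsupp.sumElim m g) = m := by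
  ext h
  rw [lft_apply, Finsupp.sumElim_inl]

theorem rgt_sum (m : σ →₀ ℕ) (g : τ →₀ ℕ) : rgt (Finsupp.sumElim m g) = g := by
  ext h
  rw [rgt_apply, Finsupp.sumElim_inr]

theorem sumElim_inj {m m' : σ →₀ ℕ} {g g' : τ →₀ ℕ}
    (h : Finsupp.sumElim m g = Finsupp.sumElim m' g') : m = m' ∧ g = g' :=
  ⟨by rw [← lft_sum m g, h, lft_sum], by rw [← rgt_sum m g, h, rgt_sum]⟩

variable [Fintype σ] [Fintype τ]

theorem sp_monomial (η : τ → k) (e : σ ⊕ τ →₀ ℕ) (c : k) :
    sp η (monomial e c) = monomial (lft e) (c * ∏ t, η t ^ rgt e t) := by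
  unfold sp
  rw [aeval_monomial, Finsupp.prod_fintype _ _ (by simp), Fintype.prod_sum_type]
  simp only [Sum.elim_inl, Sum.elim_inr, ← lft_apply, ← rgt_apply, ← map_pow]
  rw [← map_prod, algebraMap_eq, monomial_eq (s := lft e), Finsupp.prod_fintype _ _ (by simp),
    map_mul]
  ring

/-- the box of the exponents of the second group -/
abbrev Bx (τ : Type) (D : ℕ) : Type := τ → Fin (D + 1)

/-- the exponent of an element of the box -/
def ex {D : ℕ} (g : Bx τ D) : τ →₀ ℕ := Finsupp.equivFunOnFinite.symm fun t => (g t : ℕ)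

theorem ex_apply {D : ℕ} (g : Bx τ D) (t : τ) : ex g t = g t := rfl

theorem ex_inj {D : ℕ} : Function.Injective (ex : Bx τ D → (τ →₀ ℕ)) := by
  intro g g' h
  funext t
  exact Fin.ext (DFunLike.congr_fun h t)

variable [DecidableEq σ] [DecidableEq τ]

/-- coefficients of the specialisation -/
theorem coeff_sp (D : ℕ) (Q : MvPolynomial (σ ⊕ τ) k)
    (hQ : ∀ t, Q.degreeOf (Sum.inr t) ≤ D) (η : τ → k) (m : σ →₀ ℕ) :
    coeff m (sp η Q) = ∑ g : Bx τ D, (∏ t, η t ^ ex g t) * coeff (Finsupp.sumElim m (ex g)) Q := by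
  have h1 : coeff m (sp η Q) = ∑ e ∈ Q.support,
      if lft e = m then coeff e Q * ∏ t, η t ^ rgt e t else 0 := by
    conv_lhs => rw [Q.as_sum, map_sum, coeff_sum]
    refine Finset.sum_congr rfl fun e _ => ?_
    rw [sp_monomial, coeff_monomial]
  rw [h1]
  symm
  rw [← Finset.sum_filter]
  have h2 : ∑ g : Bx τ D, (∏ t, η t ^ ex g t) * coeff (Finsupp.sumElim m (ex g)) Q =
      ∑ e ∈ Finset.univ.image (fun g : Bx τ D => Finsupp.sumElim m (ex g)),
        coeff e Q * ∏ t, η t ^ rgt e t := by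
    rw [Finset.sum_image]
    · refine Finset.sum_congr rfl fun g _ => ?_
      rw [rgt_sum, mul_comm]
    · intro g _ g' _ h
      exact ex_inj (sumElim_inj h).2
  rw [h2]
  symm
  refine Finset.sum_subset ?_ ?_
  · intro e he
    rw [Finset.mem_filter] at he
    obtain ⟨he1, he2⟩ := he
    rw [Finset.mem_image]
    refine ⟨fun t => ⟨e (Sum.inr t), Nat.lt_succ_of_le
      ((monomial_le_degreeOf _ he1).trans (hQ t))⟩, Finset.mem_univ _, ?_⟩
    conv_rhs => rw [← sum_lft_rgt e, he2]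
    congr 1
    ext t
    rw [ex_apply, rgt_apply]
  · intro e he he'
    rw [Finset.mem_image] at he
    obtain ⟨g, -, rfl⟩ := he
    rw [Finset.mem_filter, not_and_or] at he'
    rcases he' with he' | he'
    · rw [notMem_support_iff.mp he', zero_mul]
    · exact absurd (lft_sum _ _) he'

/-- coefficients of the specialisation at `0` -/
theorem coeff_sp0 (Q : MvPolynomial (σ ⊕ τ) k) (m : σ →₀ ℕ) :
    coeff m (sp 0 Q) = coeff (Finsupp.sumElim m 0) Q := by
  obtain ⟨D, hD⟩ : ∃ D : ℕ, ∀ t, Q.degreeOf (Sum.inr t) ≤ D :=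
    ⟨∑ t, Q.degreeOf (Sum.inr t), fun t =>
      Finset.single_le_sum (f := fun t => Q.degreeOf (Sum.inr t)) (fun _ _ => Nat.zero_le _)
        (Finset.mem_univ t)⟩
  rw [coeff_sp D Q hD]
  rw [Finset.sum_eq_single (0 : Bx τ D)]
  · have h0 : ex (0 : Bx τ D) = 0 := by
      ext t
      simp [ex_apply]
    rw [h0]
    simp
  · intro g _ hg
    have : ∃ t, g t ≠ 0 := by
      by_contra h
      push Not at h
      exact hg (funext h)
    obtain ⟨t, ht⟩ := this
    rw [Finset.prod_eq_zero (Finset.mem_univ t), zero_mul]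
    rw [Pi.zero_apply, ex_apply]
    refine zero_pow ?_
    intro h
    exact ht (Fin.ext h)
  · intro h
    exact absurd (Finset.mem_univ _) h

/-- the coefficient of the monomial with exponent `g` in the second group of variables -/
def cf (Q : MvPolynomial (σ ⊕ τ) k) (g : τ →₀ ℕ) : MvPolynomial σ k :=
  sp 0 (hasse (Finsupp.sumElim 0 g) Q)

variable [CharZero k]

/-- coefficients of `hasse (μ, g) Q` specialised at `0` -/
theorem coeff_hasse (HB : HasseBasic) (Q : MvPolynomial (σ ⊕ τ) k) (μ : σ →₀ ℕ) (g : τ →₀ ℕ)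
    (m : σ →₀ ℕ) :
    coeff m (sp 0 (hasse (Finsupp.sumElim μ g) Q)) =
      ((∏ i, (m i + μ i).choose (μ i) : ℕ) : k) * coeff (Finsupp.sumElim (m + μ) g) Q := by
  rw [coeff_sp0, (HB k (σ ⊕ τ) (Finsupp.sumElim μ g) Q).1]
  have h1 : Finsupp.sumElim m 0 + Finsupp.sumElim μ g = Finsupp.sumElim (m + μ) g := by
    ext x
    rcases x with h | h
    · simp [Finsupp.sumElim_inl]
    · simp [Finsupp.sumElim_inr]
  rw [h1]
  congr 2
  rw [Fintype.prod_sum_type]
  simp [Finsupp.sumElim_inl, Finsupp.sumElim_inr]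

theorem coeff_cf (HB : HasseBasic) (Q : MvPolynomial (σ ⊕ τ) k) (g : τ →₀ ℕ) (m : σ →₀ ℕ) :
    coeff m (cf Q g) = coeff (Finsupp.sumElim m g) Q := by
  unfold cf
  rw [coeff_hasse HB]
  simp

theorem hasse_cf (HB : HasseBasic) (Q : MvPolynomial (σ ⊕ τ) k) (μ : σ →₀ ℕ) (g : τ →₀ ℕ) :
    sp 0 (hasse (Finsupp.sumElim μ g) Q) = hasse μ (cf Q g) := by
  ext m
  rw [coeff_hasse HB, (HB k σ μ (cf Q g)).1, coeff_cf HB]

/-- the specialisation in terms of the coefficients -/
theorem sp_eq (HB : HasseBasic) (D : ℕ) (Q : MvPolynomial (σ ⊕ τ) k)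
    (hQ : ∀ t, Q.degreeOf (Sum.inr t) ≤ D) (η : τ → k) :
    sp η Q = ∑ g : Bx τ D, (∏ t, η t ^ ex g t) • cf Q (ex g) := by
  ext m
  rw [coeff_sp D Q hQ, coeff_sum]
  refine Finset.sum_congr rfl fun g _ => ?_
  rw [coeff_smul, coeff_cf HB, smul_eq_mul]

theorem degreeOf_cf (HB : HasseBasic) (Q : MvPolynomial (σ ⊕ τ) k) (g : τ →₀ ℕ) (h : σ) :
    (cf Q g).degreeOf h ≤ Q.degreeOf (Sum.inl h) := by
  rw [degreeOf_le_iff]
  intro m hm
  rw [mem_support_iff, coeff_cf HB] at hm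
  have h1 := monomial_le_degreeOf (Sum.inl h) (mem_support_iff.mpr hm)
  rwa [Finsupp.sumElim_inl] at h1

end coef

/-- the height of the specialisation at `0` -/
theorem PH_sp0 {k : Type} [Field k] [NumberField k] {σ τ : Type} [Fintype σ] [Fintype τ]
    [DecidableEq σ] [DecidableEq τ] (Q : MvPolynomial (σ ⊕ τ) k) : PH (sp 0 Q) ≤ PH Q := by
  unfold PH
  have h1 : ∀ m ∈ (sp 0 Q).support, Finsupp.sumElim m 0 ∈ Q.support := by
    intro m hm
    rw [mem_support_iff, coeff_sp0] at hm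
    exact mem_support_iff.mpr hm
  have h2 := Height.mulHeight_comp_le
    (fun m : (sp 0 Q).support => (⟨Finsupp.sumElim m.1 0, h1 m.1 m.2⟩ : Q.support))
    (fun e : Q.support => coeff e.1 Q)
  refine le_trans (le_of_eq ?_) h2
  congr 1
  funext m
  exact coeff_sp0 Q m.1

end

end Pool.Agent.Helper7.VN
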