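import Pool.Agent.Helper7.VN.WRZ1
import Pool.Agent.Helper68.VN.GoalsN

/-! Packet PG-WRZ of MP_a41896_nt -/

set_option autoImplicit false

namespace Pool.Agent.Helper7.VN

open Pool.Agent.Helper92.Ru

/-- **WRZ** -/
theorem t_WRZ : Pool.Agent.Helper68.VN.WRZ := by
  intro k _ _ σ τ _ _ _ _ D
  refine ⟨(D + 1) ^ Fintype.card τ, cW k σ τ D, Nat.one_le_pow _ _ (Nat.succ_pos _),
    cW_nonneg k σ τ D, ?_⟩
  intro Q η R r ξ θ ρ hR hQ1 hQ2 hρ hr hne hind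
  exact main Pool.Agent.Helper40.Ru.hasseBasic
    (Pool.Agent.Helper30.Ru.genWron Pool.Agent.Helper40.Ru.hasseBasic
      Pool.Agent.Helper75.Ru.propConst)
    Pool.Agent.Helper34.Ru.wronDeg
    (Pool.Agent.Helper15.Ru.detHeight Pool.Agent.Helper40.Ru.hasseBasic
      Pool.Agent.Helper96.Ru.heightLocal)
    k σ τ D Q η R r ξ θ ρ hR hQ1 hQ2 hρ hr hne hind

end Pool.Agent.Helper7.VN
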