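import Pool.Agent.Helper7.VN.WRZ0

/-! Packet PG-WRZ of MP_a41896_nt: elimination of a constant point by a Wronskian -/

set_option autoImplicit false

open MvPolynomial

namespace Pool.Agent.Helper7.VN

open Pool.Agent.Helper92.Ru
open Pool.Agent.Helper18.Ru (WGe wt wt_add wt_nonneg)

noncomputable section

theorem wt_le {σ : Type} [Fintype σ] (r : σ → ℕ) (ρ : ℝ) (hρ : 0 < ρ) (hr : ∀ h, ρ ≤ r h)
    (μ : σ →₀ ℕ) (s : ℕ) (hμ : ∑ h, μ h ≤ s) : wt r μ ≤ s / ρ := by
  unfold wt
  have h1 : ∑ h, (μ h : ℝ) / (r h : ℝ) ≤ ∑ h, (μ h : ℝ) / ρ :=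
    Finset.sum_le_sum fun h _ => div_le_div_of_nonneg_left (Nat.cast_nonneg _) hρ (hr h)
  rw [← Finset.sum_div] at h1
  refine h1.trans (div_le_div_of_nonneg_right ?_ hρ.le)
  exact_mod_cast hμ

/-- the index of a Wronskian whose columns span a polynomial of index `≥ θ` -/
theorem ind_wron {k : Type} [Field k] [CharZero k] {σ : Type} [Fintype σ] [DecidableEq σ]
    (HB : HasseBasic) (r : σ → ℕ) (ξ : σ → k) (θ ρ : ℝ) (hρ : 0 < ρ) (hr : ∀ h, ρ ≤ r h)
    (s s0 : ℕ) (hs : s ≤ s0) (f : Fin s → MvPolynomial σ k) (μ : Fin s → (σ →₀ ℕ))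
    (hμ : ∀ i, ∑ h, μ i h ≤ i) (b : Fin s → k) (l0 : Fin s) (hb : b l0 ≠ 0)
    (hind : IndGe r ξ θ (∑ l, b l • f l)) :
    IndGe r ξ (θ - s0 / ρ) (Matrix.of (fun i j => hasse (μ i) (f j))).det := by
  set P : MvPolynomial σ k := ∑ l, b l • f l with hPdef
  set H : Matrix (Fin s) (Fin s) (MvPolynomial σ k) :=
    Matrix.of (fun i j => hasse (μ i) (f j)) with hHdef
  -- Cramer
  have h1 : (H.updateCol l0 (fun i => hasse (μ i) P)).det = C (b l0) * H.det := by
    have h2 := Matrix.det_updateCol_sum H l0 (fun l => C (b l))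
    rw [smul_eq_mul] at h2
    rw [← h2]
    congr 2
    funext i
    rw [hPdef, map_sum]
    refine Finset.sum_congr rfl fun l _ => ?_
    rw [map_smul, smul_eq_C_mul, hHdef, Matrix.of_apply, smul_eq_mul]
  have hent : ∀ i j, WGe r (if j = l0 then θ - s0 / ρ else 0)
      (shiftP ξ ((H.updateCol l0 (fun i => hasse (μ i) P)) i j)) := by
    intro i j
    rw [Matrix.updateCol_apply]
    split_ifs with hj
    · intro e he
      rw [(HB k σ (μ i) P).2.2.1 ξ, (HB k σ (μ i) (shiftP ξ P)).1 e] at he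
      have h3 := hind _ (mem_support_iff.mpr (right_ne_zero_of_mul he))
      have h4 : θ ≤ wt r (e + μ i) := h3
      rw [wt_add] at h4
      have h5 := wt_le r ρ hρ hr (μ i) s0 ((hμ i).trans (i.2.le.trans hs))
      linarith
    · intro e _
      exact wt_nonneg r e
  have key : WGe r (θ - s0 / ρ)
      (shiftP ξ (H.updateCol l0 (fun i => hasse (μ i) P)).det) := by
    have hdet : shiftP ξ (H.updateCol l0 (fun i => hasse (μ i) P)).det =
        ∑ τ : Equiv.Perm (Fin s), Equiv.Perm.sign τ •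
          ∏ j, shiftP ξ ((H.updateCol l0 (fun i => hasse (μ i) P)) (τ j) j) := by
      rw [Matrix.det_apply, map_sum]
      refine Finset.sum_congr rfl fun τ _ => ?_
      rw [Units.smul_def, Units.smul_def, map_zsmul, map_prod]
    rw [hdet]
    refine WGe.sum _ _ fun τ _ => ?_
    have h0 := WGe.prod (r := r) Finset.univ (fun j => if j = l0 then θ - s0 / ρ else 0)
      (fun j => shiftP ξ ((H.updateCol l0 (fun i => hasse (μ i) P)) (τ j) j))
      (fun j _ => hent (τ j) j)
    rw [Finset.sum_ite_eq' Finset.univ l0, if_pos (Finset.mem_univ _)] at h0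
    rcases Int.units_eq_one_or (Equiv.Perm.sign τ) with h | h
    · rw [h, one_smul]; exact h0
    · rw [h, Units.smul_def, Units.val_neg, Units.val_one, neg_smul, one_smul]
      exact h0.neg
  intro e he
  refine key e ?_
  rw [h1, map_mul]
  have h6 : shiftP ξ (C (b l0)) = C (b l0) := by
    unfold shiftP
    rw [aeval_C, algebraMap_eq]
  rw [h6, coeff_C_mul]
  exact mul_ne_zero hb (mem_support_iff.mp he)

/-- the constant -/
def cW (k : Type) [Field k] [NumberField k] (σ τ : Type) [Fintype σ] [Fintype τ] (D : ℕ) : ℝ :=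
  (2 * Fintype.card (σ ⊕ τ) + 1) * (D + (D + 1) ^ Fintype.card τ + 1) * Module.finrank ℚ k *
    Real.log 2

theorem cW_nonneg (k : Type) [Field k] [NumberField k] (σ τ : Type) [Fintype σ] [Fintype τ]
    (D : ℕ) : 0 ≤ cW k σ τ D := by
  unfold cW
  have := Real.log_nonneg (by norm_num : (1 : ℝ) ≤ 2)
  positivity

theorem main (HB : HasseBasic) (hGW : GenWron) (hWD : WronDeg) (hDH : DetHeight)
    (k : Type) [Field k] [NumberField k] (σ τ : Type) [Fintype σ] [DecidableEq σ] [Fintype τ]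
    [DecidableEq τ] (D : ℕ) (Q : MvPolynomial (σ ⊕ τ) k) (η : τ → k) (R : ℕ) (r : σ → ℕ)
    (ξ : σ → k) (θ ρ : ℝ) (hR : 1 ≤ R) (hQ1 : ∀ h, Q.degreeOf (Sum.inl h) ≤ R)
    (hQ2 : ∀ t, Q.degreeOf (Sum.inr t) ≤ D) (hρ : 0 < ρ) (hr : ∀ h, ρ ≤ r h)
    (hne : sp η Q ≠ 0) (hind : IndGe r ξ θ (sp η Q)) :
    ∃ W : MvPolynomial σ k, W ≠ 0 ∧
      (∀ h, W.degreeOf h ≤ (D + 1) ^ Fintype.card τ * Q.degreeOf (Sum.inl h)) ∧
      Real.log (PH W) ≤ ((D + 1) ^ Fintype.card τ : ℕ) * (Real.log (PH Q) + cW k σ τ D * R) ∧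
      IndGe r ξ (θ - ((D + 1) ^ Fintype.card τ : ℕ) / ρ) W := by
  classical
  set s0 : ℕ := (D + 1) ^ Fintype.card τ with hs0
  have hcard : Fintype.card (Bx τ D) = s0 := by
    rw [Fintype.card_fun, Fintype.card_fin]
  have hQ0 : Q ≠ 0 := by
    rintro rfl
    exact hne (map_zero _)
  obtain ⟨κ, a, ha, hspan, hli⟩ := exists_linearIndependent' k (fun g : Bx τ D => cf Q (ex g))
  have : Finite κ := Finite.of_injective a ha
  have : Fintype κ := Fintype.ofFinite κ
  set s := Fintype.card κ with hsdef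
  have hs : s ≤ s0 := by
    rw [← hcard]
    exact Fintype.card_le_of_injective a ha
  let e : Fin s ≃ κ := (Fintype.equivFin κ).symm
  set f : Fin s → MvPolynomial σ k := fun l => cf Q (ex (a (e l))) with hf
  have hfli : LinearIndependent k f := hli.comp e e.injective
  have hfspan : Submodule.span k (Set.range f) =
      Submodule.span k (Set.range fun g : Bx τ D => cf Q (ex g)) := by
    rw [← hspan]
    congr 1
    have : f = ((fun g : Bx τ D => cf Q (ex g)) ∘ a) ∘ e := rfl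
    rw [this, Set.range_comp, Equiv.range_eq_univ, Set.image_univ]
  have hmem : sp η Q ∈ Submodule.span k (Set.range f) := by
    rw [hfspan, sp_eq HB D Q hQ2 η]
    exact Submodule.sum_mem _ fun g _ =>
      Submodule.smul_mem _ _ (Submodule.subset_span ⟨g, rfl⟩)
  obtain ⟨b, hb⟩ := (Submodule.mem_span_range_iff_exists_fun k).mp hmem
  obtain ⟨l0, hl0⟩ : ∃ l, b l ≠ 0 := by
    by_contra h
    push Not at h
    apply hne
    rw [← hb]
    exact Finset.sum_eq_zero fun l _ => by rw [h l, zero_smul]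
  obtain ⟨μ, hμ, hW⟩ := hGW k σ s f hfli
  refine ⟨_, hW, ?_, ?_, ?_⟩
  · intro h
    refine (hWD k σ s f μ h (Q.degreeOf (Sum.inl h)) fun j => degreeOf_cf HB Q _ h).trans ?_
    exact Nat.mul_le_mul_right _ hs
  · -- height
    set R' : ℕ := R * (D + s0 + 1) with hR'
    have hR1 : D + s0 + 1 ≤ R' := Nat.le_mul_of_pos_left _ hR
    have hR2 : R ≤ R' := Nat.le_mul_of_pos_right _ (by omega)
    have h1 := hDH k (σ ⊕ τ) s R' Q (fun i j => Finsupp.sumElim (μ i) (ex (a (e j)))) hQ0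
      (by omega) (by omega) (by
        rintro (h | h)
        · exact (hQ1 h).trans hR2
        · exact (hQ2 h).trans (by omega))
    have h2 : (Matrix.of (fun i j => hasse (μ i) (f j))).det =
        sp 0 (Matrix.of (fun i j => hasse (Finsupp.sumElim (μ i) (ex (a (e j)))) Q)).det := by
      rw [AlgHom.map_det]
      congr 1
      ext i j : 2
      rw [Matrix.of_apply, AlgHom.mapMatrix_apply, Matrix.map_apply, Matrix.of_apply,
        hasse_cf HB]
    rw [h2]
    have h3 := (PH_sp0 (Matrix.of (fun i j =>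
      hasse (Finsupp.sumElim (μ i) (ex (a (e j)))) Q)).det).trans h1
    have hpos : 0 < PH (sp 0 (Matrix.of (fun i j =>
      hasse (Finsupp.sumElim (μ i) (ex (a (e j)))) Q)).det) := Height.mulHeight_pos _
    have hQpos : 0 < PH Q := Height.mulHeight_pos _
    have hQ1' : 0 ≤ Real.log (PH Q) := Height.logHeight_nonneg _
    have h4 := Real.log_le_log hpos h3
    rw [Real.log_mul (x := 2 ^ ((2 * Fintype.card (σ ⊕ τ) + 1) * R' * s *
      Module.finrank ℚ k)) (by positivity) (by positivity), Real.log_pow, Real.log_pow] at h4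
    refine h4.trans ?_
    have hlog2 : 0 ≤ Real.log 2 := Real.log_nonneg (by norm_num)
    have hs' : (s : ℝ) ≤ s0 := by exact_mod_cast hs
    have h5 : (((2 * Fintype.card (σ ⊕ τ) + 1) * R' * s * Module.finrank ℚ k : ℕ) : ℝ) *
        Real.log 2 = s * (cW k σ τ D * R) := by
      rw [hR', cW, hs0]
      push_cast
      ring
    rw [h5]
    have h6 : 0 ≤ cW k σ τ D * R := mul_nonneg (cW_nonneg k σ τ D) (Nat.cast_nonneg _)
    nlinarith
  · rw [← hb] at hind
    exact ind_wron HB r ξ θ ρ hρ hr s s0 hs f μ hμ b l0 hl0 hind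

end

end Pool.Agent.Helper7.VN
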